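import Pool.Agent.Helper33.KSZ.Landau
import Pool.Agent.Helper33.KSZ.ZetaNear
import Pool.Agent.Helper85.BV.LUpper

/-!
# Dirichlet L-functions near `s = 1`: local expansion, the inequalities for logarithmic derivatives
-/

set_option autoImplicit false
open Filter Topology Complex Metric

namespace Pool.Agent.Helper33.CA

open Pool.Agent.Helper33.KSZ DirichletCharacter

/-- The coefficients of `-L'/L`. -/
noncomputable def LX {q : ℕ} (χ : DirichletCharacter ℂ q) (n : ℕ) : ℂ := χ (n : ZMod q) * Lam n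

/-- The rotation factor. -/
noncomputable def rot {q : ℕ} (χ : DirichletCharacter ℂ q) (t : ℝ) (n : ℕ) : ℂ :=
  χ (n : ZMod q) * cexp (-(t * (Real.log n : ℂ)) * I)

lemma term_LX {q : ℕ} (χ : DirichletCharacter ℂ q) (σ t : ℝ) (n : ℕ) :
    LSeries.term (LX χ) (σ + t * I) n = (‖LSeries.term Lam (σ : ℂ) n‖ : ℂ) * rot χ t n := by
  rcases eq_or_ne n 0 with rfl | hn
  · simp
  have h1 : LSeries.term (LX χ) (σ + t * I) n = χ (n : ZMod q) *
      LSeries.term Lam (σ + t * I) n := by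
    rw [LSeries.term_of_ne_zero hn, LSeries.term_of_ne_zero hn, LX]
    ring
  have h2 : (‖LSeries.term Lam (σ : ℂ) n‖ : ℂ) =
      (ArithmeticFunction.vonMangoldt n : ℂ) * cexp (-(σ * (Real.log n : ℂ))) := by
    rw [term_val hn, norm_mul, Complex.norm_exp, Complex.norm_real,
      Real.norm_of_nonneg ArithmeticFunction.vonMangoldt_nonneg]
    have h3 : (-((σ : ℂ) * (Real.log n : ℂ))).re = -(σ * Real.log n) := by
      rw [Complex.neg_re, ← Complex.ofReal_mul, Complex.ofReal_re]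
    rw [h3]
    push_cast
    rfl
  rw [h1, h2, term_val hn, rot]
  have h4 : cexp (-(((σ : ℂ) + t * I) * (Real.log n : ℂ))) =
      cexp (-(σ * (Real.log n : ℂ))) * cexp (-(t * (Real.log n : ℂ)) * I) := by
    rw [← Complex.exp_add]
    congr 1
    ring
  rw [h4]
  ring

lemma norm_exp_rot (t : ℝ) (n : ℕ) : ‖cexp (-(t * (Real.log n : ℂ)) * I)‖ = 1 := by
  have : -(t * (Real.log n : ℂ)) * I = ((-(t * Real.log n) : ℝ) : ℂ) * I := by push_cast; ring
  rw [this, Complex.norm_exp_ofReal_mul_I]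

lemma norm_rot_le {q : ℕ} (χ : DirichletCharacter ℂ q) (t : ℝ) (n : ℕ) : ‖rot χ t n‖ ≤ 1 := by
  rw [rot, norm_mul, norm_exp_rot, mul_one]
  exact DirichletCharacter.norm_le_one χ _

lemma rot_cases {q : ℕ} (χ : DirichletCharacter ℂ q) (t : ℝ) (n : ℕ) :
    rot χ t n = 0 ∨ ‖rot χ t n‖ = 1 := by
  by_cases h : IsUnit (n : ZMod q)
  · right
    rw [rot, norm_mul, norm_exp_rot, mul_one]
    obtain ⟨u, hu⟩ := h
    rw [← hu]
    exact DirichletCharacter.unit_norm_eq_one χ u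
  · left
    rw [rot, MulChar.map_nonunit χ h, zero_mul]

lemma rot_sq {q : ℕ} (χ : DirichletCharacter ℂ q) (t : ℝ) (n : ℕ) :
    rot (χ ^ 2) (2 * t) n = rot χ t n ^ 2 := by
  rw [rot, rot, mul_pow, ← Complex.exp_nat_mul, MulChar.pow_apply' χ (by norm_num)]
  congr 2
  push_cast
  ring

lemma summable_term_LX {q : ℕ} (χ : DirichletCharacter ℂ q) {σ : ℝ} (hσ : 1 < σ) (t : ℝ) :
    Summable (fun n => LSeries.term (LX χ) (σ + t * I) n) := by
  have hs : 1 < ((σ : ℝ) : ℂ).re := by simpa using hσ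
  refine Summable.of_norm_bounded (summable_term hs) fun n => ?_
  rw [term_LX, norm_mul, Complex.norm_real, norm_norm]
  exact mul_le_of_le_one_right (norm_nonneg _) (norm_rot_le χ t n)

lemma re_LX {q : ℕ} (χ : DirichletCharacter ℂ q) {σ : ℝ} (hσ : 1 < σ) (t : ℝ) :
    Summable (fun n : ℕ => ‖LSeries.term Lam (σ : ℂ) n‖ * (rot χ t n).re) ∧
    (LSeries (LX χ) (σ + t * I)).re =
      ∑' n : ℕ, ‖LSeries.term Lam (σ : ℂ) n‖ * (rot χ t n).re := by
  have h1 := summable_term_LX χ hσ t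
  have h2 : ∀ n, (LSeries.term (LX χ) (σ + t * I) n).re =
      ‖LSeries.term Lam (σ : ℂ) n‖ * (rot χ t n).re := by
    intro n
    rw [term_LX, Complex.re_ofReal_mul]
  refine ⟨?_, ?_⟩
  · have := (Complex.reCLM.summable h1)
    refine this.congr fun n => ?_
    exact h2 n
  · unfold LSeries
    rw [Complex.re_tsum h1]
    exact tsum_congr h2

/-- The inequality with the weights 3, 4, 1. -/
lemma tfo {q : ℕ} (χ : DirichletCharacter ℂ q) {σ : ℝ} (hσ : 1 < σ) (t : ℝ) :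
    0 ≤ 3 * VV σ + 4 * (LSeries (LX χ) (σ + t * I)).re +
      (LSeries (LX (χ ^ 2)) (σ + (2 * t : ℝ) * I)).re := by
  have hs : 1 < ((σ : ℝ) : ℂ).re := by simpa using hσ
  have hS := summable_term hs
  obtain ⟨s1, e1⟩ := re_LX χ hσ t
  obtain ⟨s2, e2⟩ := re_LX (χ ^ 2) hσ (2 * t)
  rw [e1, e2, VV, ← tsum_mul_left, ← tsum_mul_left, ← (hS.mul_left 3).tsum_add (s1.mul_left 4),
    ← ((hS.mul_left 3).add (s1.mul_left 4)).tsum_add s2]
  refine tsum_nonneg fun n => ?_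
  rw [rot_sq]
  rcases rot_cases χ t n with h | h
  · rw [h]
    have := norm_nonneg (LSeries.term Lam (σ : ℂ) n)
    simp only [Complex.zero_re, mul_zero, ne_eq, OfNat.ofNat_ne_zero, not_false_eq_true, zero_pow]
    linarith
  · have h3 : (rot χ t n).re ^ 2 + (rot χ t n).im ^ 2 = 1 := by
      have h4 : (rot χ t n).re ^ 2 + (rot χ t n).im ^ 2 = ‖rot χ t n‖ ^ 2 := by
        rw [← Complex.normSq_eq_norm_sq, Complex.normSq_apply]
        ring
      rw [h4, h]
      norm_num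
    have h5 : (rot χ t n ^ 2).re = 2 * (rot χ t n).re ^ 2 - 1 := by
      rw [sq, Complex.mul_re]
      nlinarith
    rw [h5]
    have h6 : 3 * ‖LSeries.term Lam (σ : ℂ) n‖ + 4 * (‖LSeries.term Lam (σ : ℂ) n‖ *
        (rot χ t n).re) + ‖LSeries.term Lam (σ : ℂ) n‖ * (2 * (rot χ t n).re ^ 2 - 1) =
        2 * ‖LSeries.term Lam (σ : ℂ) n‖ * (1 + (rot χ t n).re) ^ 2 := by ring
    rw [h6]
    positivity

/-- The inequality for two real characters. -/
lemma four_real {q : ℕ} (χ₁ χ₂ : DirichletCharacter ℂ q) (h₁ : χ₁ ^ 2 = 1) (h₂ : χ₂ ^ 2 = 1)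
    {σ : ℝ} (hσ : 1 < σ) :
    0 ≤ VV σ + (LSeries (LX χ₁) (σ + (0 : ℝ) * I)).re + (LSeries (LX χ₂) (σ + (0 : ℝ) * I)).re +
      (LSeries (LX (χ₁ * χ₂)) (σ + (0 : ℝ) * I)).re := by
  have hs : 1 < ((σ : ℝ) : ℂ).re := by simpa using hσ
  have hS := summable_term hs
  obtain ⟨s1, e1⟩ := re_LX χ₁ hσ 0
  obtain ⟨s2, e2⟩ := re_LX χ₂ hσ 0
  obtain ⟨s3, e3⟩ := re_LX (χ₁ * χ₂) hσ 0
  rw [e1, e2, e3, VV, ← hS.tsum_add s1, ← (hS.add s1).tsum_add s2,
    ← ((hS.add s1).add s2).tsum_add s3]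
  refine tsum_nonneg fun n => ?_
  have hr : ∀ χ : DirichletCharacter ℂ q, rot χ 0 n = χ (n : ZMod q) := by
    intro χ
    simp [rot]
  rw [hr, hr, hr]
  by_cases hu : IsUnit (n : ZMod q)
  · have key : ∀ χ : DirichletCharacter ℂ q, χ ^ 2 = 1 → χ (n : ZMod q) = 1 ∨
        χ (n : ZMod q) = -1 := by
      intro χ hχ
      have h3 : χ (n : ZMod q) ^ 2 = 1 := by
        rw [← MulChar.pow_apply' χ (by norm_num), hχ, MulChar.one_apply hu]
      have h4 : (χ (n : ZMod q) - 1) * (χ (n : ZMod q) + 1) = 0 := by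
        ring_nf
        rw [h3]
        ring
      rcases mul_eq_zero.1 h4 with h5 | h5
      · exact Or.inl (sub_eq_zero.1 h5)
      · exact Or.inr (eq_neg_of_add_eq_zero_left h5)
    rw [MulChar.mul_apply]
    have hn := norm_nonneg (LSeries.term Lam (σ : ℂ) n)
    rcases key χ₁ h₁ with a | a <;> rcases key χ₂ h₂ with b | b <;> rw [a, b] <;> simp <;> linarith
  · rw [MulChar.map_nonunit _ hu, MulChar.map_nonunit _ hu, MulChar.map_nonunit _ hu]
    simp

lemma LSeries_LX {q : ℕ} [NeZero q] (χ : DirichletCharacter ℂ q) {s : ℂ} (hs : 1 < s.re) :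
    LSeries (LX χ) s = -(deriv (LFunction χ) s / LFunction χ s) := by
  have h1 := LSeries_twist_vonMangoldt_eq χ hs
  have h2 : LSeries (LX χ) s = LSeries ((fun n : ℕ => χ (n : ZMod q)) *
      (fun n : ℕ => ((ArithmeticFunction.vonMangoldt n : ℝ) : ℂ))) s := by
    refine LSeries_congr ?_ s
    intro n _
    rfl
  rw [h2, h1, LFunction_eq_LSeries χ hs, ← deriv_LFunction_eq_deriv_LSeries χ hs, neg_div]

end Pool.Agent.Helper33.CA
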