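import Pool.Agent.Helper33.CA.Basic

/-!
# Local expansion of `L'/L` near `s = 1`
-/

set_option autoImplicit false
open Filter Topology Complex Metric

namespace Pool.Agent.Helper33.CA

open Pool.Agent.Helper33.KSZ DirichletCharacter

/-- A lower bound at the point `11/10`. -/
lemma lower_at : ∃ c : ℝ, 0 < c ∧ ∀ (q : ℕ) [NeZero q] (χ : DirichletCharacter ℂ q),
    c ≤ ‖LFunction χ (11 / 10)‖ := by
  have hsum : Summable (fun n : ℕ => (n : ℝ) ^ (-(11 / 10) : ℝ)) :=
    Real.summable_nat_rpow.2 (by norm_num)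
  set Z : ℝ := ∑' n : ℕ, (n : ℝ) ^ (-(11 / 10) : ℝ) with hZ
  have hZ0 : 0 ≤ Z := tsum_nonneg fun n => Real.rpow_nonneg (Nat.cast_nonneg n) _
  refine ⟨1 / (Z + 1), by positivity, ?_⟩
  intro q _ χ
  have hs : 1 < ((11 / 10 : ℂ)).re := by norm_num
  have hmul := LSeries.mul_mu_eq_one χ hs
  rw [← LFunction_eq_LSeries χ hs] at hmul
  have hmu : ‖LSeries ((fun n : ℕ => χ (n : ZMod q)) *
      (fun n : ℕ => ((ArithmeticFunction.moebius n : ℤ) : ℂ))) (11 / 10)‖ ≤ Z := by
    unfold LSeries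
    refine tsum_of_norm_bounded hsum.hasSum fun n => ?_
    rw [LSeries.norm_term_eq]
    split_ifs with hn
    · exact Real.rpow_nonneg (Nat.cast_nonneg n) _
    · have h1 : ‖((fun n : ℕ => χ (n : ZMod q)) *
          (fun n : ℕ => ((ArithmeticFunction.moebius n : ℤ) : ℂ))) n‖ ≤ 1 := by
        rw [Pi.mul_apply, norm_mul]
        have h2 : ‖(((ArithmeticFunction.moebius n : ℤ)) : ℂ)‖ ≤ 1 := by
          rw [Complex.norm_intCast]
          exact_mod_cast ArithmeticFunction.abs_moebius_le_one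
        exact mul_le_one₀ (DirichletCharacter.norm_le_one χ _) (norm_nonneg _) h2
      have h3 : ((11 / 10 : ℂ)).re = 11 / 10 := by norm_num
      rw [h3, Real.rpow_neg (Nat.cast_nonneg n), div_eq_mul_inv]
      exact mul_le_of_le_one_left (by positivity) h1
  have h1 : 1 ≤ ‖LFunction χ (11 / 10)‖ * (Z + 1) := by
    calc (1 : ℝ) = ‖LFunction χ (11 / 10) * LSeries ((fun n : ℕ => χ (n : ZMod q)) *
          (fun n : ℕ => ((ArithmeticFunction.moebius n : ℤ) : ℂ))) (11 / 10)‖ := by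
            rw [hmul, norm_one]
      _ ≤ ‖LFunction χ (11 / 10)‖ * (Z + 1) := by
            rw [norm_mul]
            exact mul_le_mul_of_nonneg_left (hmu.trans (by linarith)) (norm_nonneg _)
  rw [div_le_iff₀ (by positivity)]
  exact h1

lemma re_lt_one {q : ℕ} [NeZero q] {χ : DirichletCharacter ℂ q} (hχ : χ ≠ 1) {z : ℂ}
    (hz : LFunction χ z = 0) : z.re < 1 := by
  by_contra h
  push Not at h
  exact LFunction_ne_zero_of_one_le_re χ (Or.inl hχ) h hz

lemma order_pos {q : ℕ} [NeZero q] {χ : DirichletCharacter ℂ q} (hχ : χ ≠ 1) {ρ : ℂ}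
    (h : LFunction χ ρ = 0) : 1 ≤ analyticOrderNatAt (LFunction χ) ρ := by
  have hEA : AnalyticOnNhd ℂ (LFunction χ) Set.univ :=
    (differentiable_LFunction hχ).differentiableOn.analyticOnNhd isOpen_univ
  have hnot : ¬ ∀ᶠ z in 𝓝 ρ, LFunction χ z = 0 := by
    intro h4
    have h5 := hEA.eqOn_zero_of_preconnected_of_eventuallyEq_zero isPreconnected_univ
      (Set.mem_univ ρ) h4 (Set.mem_univ (1 : ℂ))
    have h6 := re_lt_one hχ h5
    simp at h6
  have htop : analyticOrderAt (LFunction χ) ρ ≠ ⊤ := by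
    rw [Ne, analyticOrderAt_eq_top]
    exact hnot
  have h0 : analyticOrderAt (LFunction χ) ρ ≠ 0 := by
    rw [Ne, (hEA ρ (Set.mem_univ ρ)).analyticOrderAt_eq_zero]
    exact fun h4 => h4 h
  rw [Nat.one_le_iff_ne_zero]
  intro h4
  apply h0
  rw [← Nat.cast_analyticOrderNatAt htop, h4]
  rfl

/-- The local expansion. -/
lemma local_LX : ∃ C : ℝ, 0 < C ∧ ∀ (q : ℕ) [NeZero q] (χ : DirichletCharacter ℂ q), 3 ≤ q →
    χ ≠ 1 → ∃ S : Finset ℂ,
      (∀ z, z ∈ S ↔ z ∈ closedBall (11 / 10 : ℂ) (2 / 5) ∧ LFunction χ z = 0) ∧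
      (∑ c ∈ S, (analyticOrderNatAt (LFunction χ) c : ℝ)) ≤ C * Real.log q ∧
      ∀ z ∈ closedBall (11 / 10 : ℂ) (1 / 5), LFunction χ z ≠ 0 →
        ‖deriv (LFunction χ) z / LFunction χ z -
          ∑ c ∈ S, (analyticOrderNatAt (LFunction χ) c : ℂ) / (z - c)‖ ≤ C * Real.log q := by
  obtain ⟨c, hc, hlow⟩ := lower_at
  set K : ℝ := 7 / c + 1 with hK
  have hK1 : 1 < K := by rw [hK]; have : 0 < 7 / c := by positivity
                         linarith
  have hlK : 0 < Real.log K := Real.log_pos hK1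
  refine ⟨(1 + Real.log K) * 68, by positivity, ?_⟩
  intro q _ χ hq hχ
  have hq1 : (1 : ℝ) ≤ Real.log q := by
    rw [Real.le_log_iff_exp_le (by positivity)]
    have h3 : (3 : ℝ) ≤ q := by exact_mod_cast hq
    linarith [Real.exp_one_lt_d9]
  have hq0 : (0 : ℝ) < q := by
    have h3 : (3 : ℝ) ≤ q := by exact_mod_cast hq
    linarith
  set M : ℝ := Real.log q + Real.log K with hM
  have hM0 : 0 < M := by positivity
  have hMle : M ≤ (1 + Real.log K) * Real.log q := by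
    rw [hM]
    nlinarith
  have hne : LFunction χ (11 / 10) ≠ 0 := by
    intro h
    have := hlow q χ
    rw [h, norm_zero] at this
    linarith
  have hb : ∀ z ∈ ball (11 / 10 : ℂ) (4 / 5), ‖LFunction χ z‖ ≤
      Real.exp M * ‖LFunction χ (11 / 10)‖ := by
    intro z hz
    rw [mem_ball, dist_eq_norm] at hz
    have hre : 3 / 10 < z.re := by
      have h1 := Complex.abs_re_le_norm (z - 11 / 10)
      have h2 : (z - 11 / 10).re = z.re - 11 / 10 := by
        rw [Complex.sub_re]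
        norm_num
      rw [h2] at h1
      have := (abs_le.1 h1).1
      linarith
    have hn : ‖z‖ ≤ 19 / 10 := by
      have h1 : ‖z‖ ≤ ‖z - 11 / 10‖ + ‖(11 / 10 : ℂ)‖ := by
        calc ‖z‖ = ‖(z - 11 / 10) + 11 / 10‖ := by ring_nf
          _ ≤ _ := norm_add_le _ _
      have h2 : ‖(11 / 10 : ℂ)‖ = 11 / 10 := by norm_num
      rw [h2] at h1
      linarith
    have h1 := Pool.Agent.Helper85.BV.lBound q χ hχ z (by linarith)
    have h2 : (q : ℝ) * ‖z‖ / z.re ≤ q * 7 := by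
      rw [div_le_iff₀ (by linarith)]
      nlinarith
    have h3 : Real.exp M = q * K := by
      rw [hM, Real.exp_add, Real.exp_log hq0, Real.exp_log (by linarith)]
    rw [h3]
    refine h1.trans (h2.trans ?_)
    have h4 : (7 : ℝ) ≤ K * ‖LFunction χ (11 / 10)‖ := by
      calc (7 : ℝ) = 7 / c * c := by field_simp
        _ ≤ K * ‖LFunction χ (11 / 10)‖ := by
          refine mul_le_mul (by rw [hK]; linarith) (hlow q χ) hc.le (by linarith)
    calc (q : ℝ) * 7 ≤ q * (K * ‖LFunction χ (11 / 10)‖) :=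
          mul_le_mul_of_nonneg_left h4 hq0.le
      _ = _ := by ring
  obtain ⟨S, hS, hcount, hld⟩ := landau (by norm_num : (0 : ℝ) < 4 / 5) hM0
    (differentiable_LFunction hχ).differentiableOn hne hb
  have e1 : (4 / 5 : ℝ) / 2 = 2 / 5 := by norm_num
  have e2 : (4 / 5 : ℝ) / 4 = 1 / 5 := by norm_num
  rw [e1] at hS
  rw [e2] at hld
  refine ⟨S, hS, hcount.trans ?_, fun z hz hz0 => (hld z hz hz0).trans ?_⟩
  · have : 0 ≤ (1 + Real.log K) * Real.log q := by positivity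
    nlinarith
  · have : 0 ≤ (1 + Real.log K) * Real.log q := by positivity
    have h3 : 54 * M / (4 / 5) = 67.5 * M := by ring
    rw [h3]
    nlinarith

lemma re_nonneg' {s c : ℂ} (h : c.re < s.re) (m : ℕ) : 0 ≤ ((m : ℂ) / (s - c)).re := by
  have h4 : ((m : ℂ) / (s - c)) = ((m : ℝ) : ℂ) * (1 / (s - c)) := by push_cast; ring
  rw [h4, Complex.re_ofReal_mul, one_div, Complex.inv_re]
  refine mul_nonneg (Nat.cast_nonneg _) (div_nonneg ?_ (Complex.normSq_nonneg _))
  rw [Complex.sub_re]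
  linarith

/-- Upper bounds for the real part of `-L'/L`. -/
lemma re_upper : ∃ C : ℝ, 0 < C ∧ ∀ (q : ℕ) [NeZero q] (χ : DirichletCharacter ℂ q), 3 ≤ q →
    χ ≠ 1 → ∀ z ∈ closedBall (11 / 10 : ℂ) (1 / 5), 1 < z.re →
      (LSeries (LX χ) z).re ≤ C * Real.log q ∧
      ∀ ρ ∈ closedBall (11 / 10 : ℂ) (2 / 5), LFunction χ ρ = 0 →
        (LSeries (LX χ) z).re ≤ C * Real.log q - (1 / (z - ρ)).re := by
  obtain ⟨C, hC, hloc⟩ := local_LX
  refine ⟨C, hC, ?_⟩
  intro q _ χ hq hχ z hz hz1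
  obtain ⟨S, hS, -, hld⟩ := hloc q χ hq hχ
  have hz0 : LFunction χ z ≠ 0 := LFunction_ne_zero_of_one_le_re χ (Or.inl hχ) hz1.le
  have h1 := hld z hz hz0
  have h2 := (abs_le.1 ((Complex.abs_re_le_norm _).trans h1)).1
  rw [Complex.sub_re] at h2
  have hpos : ∀ c ∈ S, 0 ≤ ((analyticOrderNatAt (LFunction χ) c : ℂ) / (z - c)).re := by
    intro c hc
    exact re_nonneg' ((re_lt_one hχ ((hS c).1 hc).2).trans hz1) _
  have h3 : (∑ c ∈ S, (analyticOrderNatAt (LFunction χ) c : ℂ) / (z - c)).re =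
      ∑ c ∈ S, ((analyticOrderNatAt (LFunction χ) c : ℂ) / (z - c)).re := Complex.re_sum _ _
  rw [h3] at h2
  rw [LSeries_LX χ hz1, Complex.neg_re]
  refine ⟨?_, ?_⟩
  · have := Finset.sum_nonneg hpos
    linarith
  · intro ρ hρ hρ0
    have hρS : ρ ∈ S := (hS ρ).2 ⟨hρ, hρ0⟩
    have h4 := Finset.single_le_sum hpos hρS
    have h5 : (1 / (z - ρ)).re ≤ ((analyticOrderNatAt (LFunction χ) ρ : ℂ) / (z - ρ)).re := by
      have h6 := re_nonneg' ((re_lt_one hχ hρ0).trans hz1) (analyticOrderNatAt (LFunction χ) ρ - 1)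
      have h7 := order_pos hχ hρ0
      rw [Nat.cast_sub h7, sub_div, Complex.sub_re, Nat.cast_one] at h6
      linarith
    linarith

end Pool.Agent.Helper33.CA
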