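import Pool.Agent.Helper33.CA.Local

/-!
# Zero-free discs near `s = 1` for Dirichlet L-functions, and derivatives of `L'/L`
-/

set_option autoImplicit false
open Filter Topology Complex Metric

namespace Pool.Agent.Helper33.CA

open Pool.Agent.Helper33.KSZ DirichletCharacter

lemma log_ge_one {q : ℕ} (hq : 3 ≤ q) : (1 : ℝ) ≤ Real.log q := by
  have h3 : (3 : ℝ) ≤ q := by exact_mod_cast hq
  rw [Real.le_log_iff_exp_le (by linarith)]
  linarith [Real.exp_one_lt_d9]

lemma mem_cb {σ t r : ℝ} (hσ : 1 ≤ σ) (hσ2 : σ ≤ 1 + 1 / 20) (ht : |t| ≤ 1 / 50)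
    (hr : 1 / 5 ≤ r) : ((σ : ℂ) + t * I) ∈ closedBall (11 / 10 : ℂ) r := by
  rw [mem_closedBall, dist_eq_norm]
  have h1 : (σ : ℂ) + t * I - 11 / 10 = ((σ - 11 / 10 : ℝ) : ℂ) + (t : ℂ) * I := by
    push_cast
    ring
  rw [h1]
  have h2 : ‖((σ - 11 / 10 : ℝ) : ℂ) + (t : ℂ) * I‖ ≤ |σ - 11 / 10| + |t| := by
    refine (norm_add_le _ _).trans ?_
    rw [Complex.norm_real, norm_mul, Complex.norm_real, Complex.norm_I, mul_one,
      Real.norm_eq_abs, Real.norm_eq_abs]
  have h3 : |σ - 11 / 10| ≤ 1 / 10 := by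
    rw [abs_le]
    constructor <;> linarith
  linarith

lemma mem_cb' {s : ℂ} {r r' : ℝ} (hs : ‖s - 1‖ ≤ r) (hr : r + 1 / 10 ≤ r') :
    s ∈ closedBall (11 / 10 : ℂ) r' := by
  rw [mem_closedBall, dist_eq_norm]
  have h1 : s - 11 / 10 = (s - 1) - (1 / 10 : ℂ) := by ring
  rw [h1]
  have h2 : ‖(1 / 10 : ℂ)‖ = 1 / 10 := by norm_num
  refine (norm_sub_le _ _).trans ?_
  rw [h2]
  linarith

/-- Complex characters have no zeros in the disc with radius `c / log q` round `1`. -/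
theorem zf_complex : ∃ c : ℝ, 0 < c ∧ c ≤ 1 / 100 ∧ ∀ (q : ℕ) [NeZero q]
    (χ : DirichletCharacter ℂ q), 3 ≤ q → χ ^ 2 ≠ 1 → ∀ s : ℂ, ‖s - 1‖ ≤ c / Real.log q →
      LFunction χ s ≠ 0 := by
  obtain ⟨C, hC, hup⟩ := re_upper
  obtain ⟨C₁, hC₁, hV⟩ := VV_bound
  set K : ℝ := 5 * C + 3 * C₁ with hK
  have hK0 : 0 < K := by positivity
  set a : ℝ := min (1 / (4 * K)) (1 / 20) with ha
  have ha0 : 0 < a := lt_min (by positivity) (by norm_num)
  have ha1 : a ≤ 1 / 20 := min_le_right _ _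
  have haK : 4 * K ≤ 1 / a := by
    rw [le_div_iff₀ ha0]
    have h1 : a ≤ 1 / (4 * K) := min_le_left _ _
    rw [le_div_iff₀ (by positivity)] at h1
    linarith
  refine ⟨a / 5, by positivity, by linarith, ?_⟩
  intro q _ χ hq hχ2 s hs h0
  have hχ : χ ≠ 1 := by
    rintro rfl
    exact hχ2 (one_pow _)
  set l := Real.log q with hl
  have hl1 : 1 ≤ l := log_ge_one hq
  have hl0 : 0 < l := by linarith
  have hal : a / l ≤ 1 / 20 := (div_le_self ha0.le hl1).trans ha1
  have hal0 : 0 < a / l := by positivity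
  have hsl : a / 5 / l ≤ 1 / 100 := by
    have : a / 5 / l = a / l / 5 := by ring
    rw [this]
    linarith
  set σ : ℝ := 1 + a / l with hσ
  have hσ1 : 1 < σ := by linarith
  have hσ2 : σ ≤ 1 + 1 / 20 := by linarith
  set γ : ℝ := s.im with hγ
  have hγ1 : |γ| ≤ 1 / 100 := by
    have h1 := Complex.abs_im_le_norm (s - 1)
    rw [Complex.sub_im, Complex.one_im, sub_zero] at h1
    linarith
  have hβ1 : s.re < 1 := re_lt_one hχ h0
  have hβ : 1 - s.re ≤ a / 5 / l := by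
    have h1 := Complex.abs_re_le_norm (s - 1)
    rw [Complex.sub_re, Complex.one_re] at h1
    have h2 := (abs_le.1 h1).1
    linarith
  have h34 := tfo χ hσ1 γ
  have hz : ((σ : ℂ) + γ * I) ∈ closedBall (11 / 10 : ℂ) (1 / 5) :=
    mem_cb hσ1.le hσ2 (by linarith) le_rfl
  have hz2 : ((σ : ℂ) + (2 * γ : ℝ) * I) ∈ closedBall (11 / 10 : ℂ) (1 / 5) := by
    refine mem_cb hσ1.le hσ2 ?_ le_rfl
    rw [abs_mul, abs_two]
    linarith
  have hre : 1 < ((σ : ℂ) + γ * I).re := by simpa using hσ1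
  have hre2 : 1 < ((σ : ℂ) + (2 * γ : ℝ) * I).re := by simpa using hσ1
  have h1 := (hup q χ hq hχ _ hz hre).2 s (mem_cb' hs (by linarith)) h0
  have h2 := (hup q (χ ^ 2) hq hχ2 _ hz2 hre2).1
  have h3 := hV σ hσ1 (by linarith)
  have h4 : (1 / ((σ : ℂ) + γ * I - s)).re = 1 / (σ - s.re) := by
    have h5 : (σ : ℂ) + γ * I - s = ((σ - s.re : ℝ) : ℂ) := by
      apply Complex.ext <;> simp [hγ]
    rw [h5]
    rw [show (1 : ℂ) / ((σ - s.re : ℝ) : ℂ) = ((1 / (σ - s.re) : ℝ) : ℂ) by push_cast; ring]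
    rw [Complex.ofReal_re]
  have h5 : 5 * l / (6 * a) ≤ 1 / (σ - s.re) := by
    have h6 : σ - s.re ≤ 6 * a / (5 * l) := by
      have : 6 * a / (5 * l) = a / l + a / 5 / l := by
        field_simp
        ring
      rw [this]
      linarith
    have h7 : 0 < σ - s.re := by linarith
    rw [le_div_iff₀ h7]
    calc 5 * l / (6 * a) * (σ - s.re) ≤ 5 * l / (6 * a) * (6 * a / (5 * l)) :=
          mul_le_mul_of_nonneg_left h6 (by positivity)
      _ = 1 := by field_simp
  have h6 : 1 / (σ - 1) = l / a := by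
    rw [hσ, add_sub_cancel_left, one_div_div]
  rw [h4] at h1
  rw [h6] at h3
  have h7 : 5 * l / (6 * a) = 5 / 6 * (l / a) := by ring
  rw [h7] at h5
  have h8 : l / a / 3 ≤ K * l := by
    rw [hK]
    nlinarith
  have h9 : l * (4 * K) ≤ l / a := by
    have := mul_le_mul_of_nonneg_left haK hl0.le
    rw [mul_one_div] at this
    exact this
  nlinarith

/-- Two different real characters do not both have a zero in the disc. -/
theorem zf_real : ∃ c : ℝ, 0 < c ∧ c ≤ 1 / 100 ∧ ∀ (q : ℕ) [NeZero q]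
    (χ₁ χ₂ : DirichletCharacter ℂ q), 3 ≤ q → χ₁ ≠ 1 → χ₂ ≠ 1 → χ₁ ^ 2 = 1 → χ₂ ^ 2 = 1 →
    χ₁ ≠ χ₂ → ∀ s₁ s₂ : ℂ, ‖s₁ - 1‖ ≤ c / Real.log q → ‖s₂ - 1‖ ≤ c / Real.log q →
      LFunction χ₁ s₁ = 0 → LFunction χ₂ s₂ ≠ 0 := by
  obtain ⟨C, hC, hup⟩ := re_upper
  obtain ⟨C₁, hC₁, hV⟩ := VV_bound
  set K : ℝ := 3 * C + C₁ with hK
  have hK0 : 0 < K := by positivity
  set a : ℝ := min (1 / (4 * K)) (1 / 20) with ha
  have ha0 : 0 < a := lt_min (by positivity) (by norm_num)
  have ha1 : a ≤ 1 / 20 := min_le_right _ _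
  have haK : 4 * K ≤ 1 / a := by
    rw [le_div_iff₀ ha0]
    have h1 : a ≤ 1 / (4 * K) := min_le_left _ _
    rw [le_div_iff₀ (by positivity)] at h1
    linarith
  refine ⟨a / 5, by positivity, by linarith, ?_⟩
  intro q _ χ₁ χ₂ hq hχ₁ hχ₂ h₁ h₂ hne s₁ s₂ hs₁ hs₂ hz₁ hz₂
  have hχ₃ : χ₁ * χ₂ ≠ 1 := by
    intro h
    apply hne
    have h3 : χ₁ * χ₂ * χ₂ = χ₁ := by rw [mul_assoc, ← sq, h₂, mul_one]
    rw [← h3, h, one_mul]
  set l := Real.log q with hl
  have hl1 : 1 ≤ l := log_ge_one hq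
  have hl0 : 0 < l := by linarith
  have hal : a / l ≤ 1 / 20 := (div_le_self ha0.le hl1).trans ha1
  have hal0 : 0 < a / l := by positivity
  have hsl : a / 5 / l ≤ 1 / 100 := by
    have : a / 5 / l = a / l / 5 := by ring
    rw [this]
    linarith
  set σ : ℝ := 1 + a / l with hσ
  have hσ1 : 1 < σ := by linarith
  have hσ2 : σ ≤ 1 + 1 / 20 := by linarith
  have h34 := four_real χ₁ χ₂ h₁ h₂ hσ1
  have hz : ((σ : ℂ) + (0 : ℝ) * I) ∈ closedBall (11 / 10 : ℂ) (1 / 5) :=
    mem_cb hσ1.le hσ2 (by norm_num) le_rfl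
  have hre : 1 < ((σ : ℂ) + (0 : ℝ) * I).re := by simpa using hσ1
  have key : ∀ (χ : DirichletCharacter ℂ q) (s : ℂ), χ ≠ 1 → ‖s - 1‖ ≤ a / 5 / l →
      LFunction χ s = 0 →
      (LSeries (LX χ) ((σ : ℂ) + (0 : ℝ) * I)).re ≤ C * l - 25 / 36 * (l / a) := by
    intro χ s hχ hs h0
    have h1 := (hup q χ hq hχ _ hz hre).2 s (mem_cb' hs (by linarith)) h0
    have hβ1 : s.re < 1 := re_lt_one hχ h0
    have h4 : 25 / 36 * (l / a) ≤ (1 / ((σ : ℂ) + (0 : ℝ) * I - s)).re := by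
      set w : ℂ := (σ : ℂ) + (0 : ℝ) * I - s with hw
      have hwre : w.re = σ - s.re := by simp [hw]
      have hwn : ‖w‖ ≤ 6 * a / (5 * l) := by
        have h5 : w = ((a / l : ℝ) : ℂ) - (s - 1) := by
          rw [hw, hσ]
          push_cast
          ring
        rw [h5]
        refine (norm_sub_le _ _).trans ?_
        rw [Complex.norm_real, Real.norm_of_nonneg hal0.le]
        have : 6 * a / (5 * l) = a / l + a / 5 / l := by
          field_simp
          ring
        rw [this]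
        linarith
      have hw0 : 0 < w.re := by rw [hwre]; linarith
      have hwpos : 0 < Complex.normSq w := by
        rw [Complex.normSq_pos]
        rintro h
        rw [h] at hw0
        simp at hw0
      rw [one_div, Complex.inv_re, le_div_iff₀ hwpos]
      have h6 : Complex.normSq w ≤ (6 * a / (5 * l)) ^ 2 := by
        rw [Complex.normSq_eq_norm_sq]
        exact pow_le_pow_left₀ (norm_nonneg _) hwn 2
      calc 25 / 36 * (l / a) * Complex.normSq w ≤ 25 / 36 * (l / a) * (6 * a / (5 * l)) ^ 2 :=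
            mul_le_mul_of_nonneg_left h6 (by positivity)
        _ = a / l := by
            field_simp
            ring
        _ ≤ w.re := by rw [hwre]; linarith
    linarith
  have k1 := key χ₁ s₁ hχ₁ hs₁ hz₁
  have k2 := key χ₂ s₂ hχ₂ hs₂ hz₂
  have k3 := (hup q (χ₁ * χ₂) hq hχ₃ _ hz hre).1
  have h3 := hV σ hσ1 (by linarith)
  have h6 : 1 / (σ - 1) = l / a := by
    rw [hσ, add_sub_cancel_left, one_div_div]
  rw [h6] at h3
  have h8 : 7 / 18 * (l / a) ≤ K * l := by
    rw [hK]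
    nlinarith
  have h9 : l * (4 * K) ≤ l / a := by
    have := mul_le_mul_of_nonneg_left haK hl0.le
    rw [mul_one_div] at this
    exact this
  nlinarith

/-- The derivatives of `L'/L` near `s = 1`, if there is no zero near `1`. -/
theorem near_k (k : ℕ) {c₀ : ℝ} (hc₀ : 0 < c₀) (hc₁ : c₀ ≤ 1 / 10) : ∃ C : ℝ, 0 < C ∧
    ∀ l : ℝ, 1 ≤ l → ∀ (q : ℕ) [NeZero q] (χ : DirichletCharacter ℂ q), 3 ≤ q →
      Real.log q ≤ l → χ ≠ 1 → (∀ s : ℂ, ‖s - 1‖ ≤ c₀ / l → LFunction χ s ≠ 0) →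
      ∀ s : ℂ, ‖s - 1‖ ≤ c₀ / (2 * l) →
        ‖iteratedDeriv k (fun z => deriv (LFunction χ) z / LFunction χ z) s‖ ≤
          C * l ^ (k + 2) := by
  obtain ⟨C, hC, hloc⟩ := local_LX
  set C' : ℝ := C * (4 / c₀ + 1) with hC'
  have hC'0 : 0 < C' := by positivity
  refine ⟨k.factorial * C' * (4 / c₀) ^ k, by positivity, ?_⟩
  intro l hl q _ χ hq hql hχ hno s hs
  have hl0 : 0 < l := by linarith
  have hcl : c₀ / l ≤ 1 / 10 := (div_le_self hc₀.le hl).trans hc₁
  obtain ⟨S, hS, hcount, hld⟩ := hloc q χ hq hχ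
  set r : ℝ := c₀ / (4 * l) with hr
  have hr0 : 0 < r := by positivity
  have hr1 : c₀ / (2 * l) = 2 * r := by rw [hr]; field_simp; ring
  have hr2 : c₀ / l = 4 * r := by rw [hr]; field_simp
  rw [hr1] at hs
  rw [hr2] at hno hcl
  have hball : ∀ z ∈ closedBall s r, ‖z - 1‖ ≤ 3 * r := by
    intro z hz
    rw [mem_closedBall, dist_eq_norm] at hz
    calc ‖z - 1‖ = ‖(z - s) + (s - 1)‖ := by ring_nf
      _ ≤ ‖z - s‖ + ‖s - 1‖ := norm_add_le _ _
      _ ≤ 3 * r := by linarith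
  have hne : ∀ z ∈ closedBall s r, LFunction χ z ≠ 0 := fun z hz =>
    hno z ((hball z hz).trans (by linarith))
  have hd : DiffContOnCl ℂ (fun z => deriv (LFunction χ) z / LFunction χ z) (ball s r) := by
    have h1 : DifferentiableOn ℂ (fun z => deriv (LFunction χ) z / LFunction χ z)
        (closedBall s r) := by
      have h2 : Differentiable ℂ (deriv (LFunction χ)) :=
        ((differentiable_LFunction hχ).contDiff (n := 2)).differentiable_deriv_two
      exact h2.differentiableOn.div (differentiable_LFunction hχ).differentiableOn hne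
    refine DifferentiableOn.diffContOnCl ?_
    rw [closure_ball s hr0.ne']
    exact h1
  have hb : ∀ z ∈ sphere s r, ‖deriv (LFunction χ) z / LFunction χ z‖ ≤ C' * l ^ 2 := by
    intro z hz
    have hz' := sphere_subset_closedBall hz
    have hz1 := hball z hz'
    have h1 := hld z (mem_cb' hz1 (by linarith)) (hne z hz')
    have h2 : ‖∑ c ∈ S, (analyticOrderNatAt (LFunction χ) c : ℂ) / (z - c)‖ ≤
        C * l * (1 / r) := by
      refine (norm_sum_le _ _).trans ?_
      have h3 : ∀ c ∈ S, ‖(analyticOrderNatAt (LFunction χ) c : ℂ) / (z - c)‖ ≤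
          (analyticOrderNatAt (LFunction χ) c : ℝ) * (1 / r) := by
        intro c hc
        have h4 : r ≤ ‖z - c‖ := by
          have h5 : 4 * r < ‖c - 1‖ := by
            by_contra hcon
            push Not at hcon
            exact hno c hcon ((hS c).1 hc).2
          have h6 : ‖c - 1‖ ≤ ‖z - c‖ + ‖z - 1‖ := by
            calc ‖c - 1‖ = ‖(z - 1) - (z - c)‖ := by ring_nf
              _ ≤ ‖z - 1‖ + ‖z - c‖ := norm_sub_le _ _
              _ = _ := by ring
          linarith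
        rw [norm_div, Complex.norm_natCast, div_eq_mul_one_div]
        exact mul_le_mul_of_nonneg_left (one_div_le_one_div_of_le hr0 h4) (Nat.cast_nonneg _)
      refine (Finset.sum_le_sum h3).trans ?_
      rw [← Finset.sum_mul]
      refine mul_le_mul_of_nonneg_right (hcount.trans ?_) (by positivity)
      exact mul_le_mul_of_nonneg_left hql hC.le
    have h3 : ‖deriv (LFunction χ) z / LFunction χ z‖ ≤ C * Real.log q + C * l * (1 / r) := by
      calc ‖deriv (LFunction χ) z / LFunction χ z‖ =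
          ‖(deriv (LFunction χ) z / LFunction χ z -
            ∑ c ∈ S, (analyticOrderNatAt (LFunction χ) c : ℂ) / (z - c)) +
            ∑ c ∈ S, (analyticOrderNatAt (LFunction χ) c : ℂ) / (z - c)‖ := by ring_nf
        _ ≤ _ := (norm_add_le _ _).trans (add_le_add h1 h2)
    have h4 : C * l * (1 / r) = C * (4 / c₀) * l ^ 2 := by
      rw [hr]
      field_simp
    have h5 : C * Real.log q ≤ C * l ^ 2 := by
      refine mul_le_mul_of_nonneg_left (hql.trans ?_) hC.le
      nlinarith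
    rw [h4] at h3
    rw [hC']
    linarith
  have hfin := Complex.norm_iteratedDeriv_le_of_forall_mem_sphere_norm_le k hr0 hd hb
  refine hfin.trans (le_of_eq ?_)
  rw [hr, pow_add, div_pow, div_pow]
  field_simp
  ring

end Pool.Agent.Helper33.CA
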